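import Pool.Agent.H8.AV3.Stmts5

/-!
# AV3C: ARC, every nonzero rational function is a unit times a power of the uniformizer
-/

set_option autoImplicit false

namespace Pool.Agent.H85.AV3C

open Polynomial Matrix Pool.AVR Pool.AV3

theorem mem_IP_of {F : Type} [Field F] {P : F[X]} (p q : F[X]) (hq : ¬ P ∣ q) :
    algebraMap F[X] (RatFunc F) p / algebraMap F[X] (RatFunc F) q ∈ AVS.IP P := by
  intro h
  exact hq (h.trans (RatFunc.denom_div_dvd p q))

theorem am_ne {F : Type} [Field F] {q : F[X]} (hq : q ≠ 0) :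
    algebraMap F[X] (RatFunc F) q ≠ 0 :=
  (map_ne_zero_iff _ (IsFractionRing.injective F[X] (RatFunc F))).2 hq

theorem split_pow {F : Type} [Field F] {P : F[X]} (hP : Irreducible P) (p : F[X]) (hp : p ≠ 0) :
    ∃ (a : ℕ) (r : F[X]), p = P ^ a * r ∧ ¬ P ∣ r := by
  have hf : FiniteMultiplicity P p :=
    FiniteMultiplicity.of_not_isUnit hP.not_isUnit hp
  obtain ⟨r, hr, hr2⟩ := hf.exists_eq_pow_mul_and_not_dvd
  exact ⟨_, r, hr, hr2⟩

theorem intDegree_zpow {F : Type} [Field F] (n : ℤ) :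
    ((RatFunc.X : RatFunc F) ^ n).intDegree = n := by
  have hX0 : (RatFunc.X : RatFunc F) ≠ 0 := RatFunc.X_ne_zero
  have hnat : ∀ k : ℕ, ((RatFunc.X : RatFunc F) ^ k).intDegree = k := by
    intro k
    rw [← RatFunc.algebraMap_X, ← map_pow, RatFunc.intDegree_polynomial, natDegree_X_pow]
  rcases Int.eq_nat_or_neg n with ⟨k, rfl | rfl⟩
  · rw [zpow_natCast]; exact hnat k
  · rw [_root_.zpow_neg, zpow_natCast, RatFunc.intDegree_inv, hnat]

theorem arc_thm : ARCStmt := by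
  refine ⟨?_, ?_⟩
  · intro F _ P hP x hx
    have hn0 : x.num ≠ 0 := RatFunc.num_ne_zero hx
    have hd0 : x.denom ≠ 0 := RatFunc.denom_ne_zero x
    obtain ⟨a, r, hr, hr2⟩ := split_pow hP x.num hn0
    obtain ⟨b, s, hs, hs2⟩ := split_pow hP x.denom hd0
    have hP0 := am_ne hP.ne_zero
    have hr0 : r ≠ 0 := fun h => hr2 (h ▸ dvd_zero P)
    have hs0 : s ≠ 0 := fun h => hs2 (h ▸ dvd_zero P)
    have hr1 := am_ne hr0
    have hs1 := am_ne hs0
    have key : x / algebraMap F[X] (RatFunc F) P ^ ((a : ℤ) - b) =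
        algebraMap F[X] (RatFunc F) r / algebraMap F[X] (RatFunc F) s := by
      have hx1 : x = algebraMap F[X] (RatFunc F) P ^ a * algebraMap F[X] (RatFunc F) r /
          (algebraMap F[X] (RatFunc F) P ^ b * algebraMap F[X] (RatFunc F) s) := by
        rw [← map_pow, ← map_pow, ← map_mul, ← map_mul, ← hr, ← hs, RatFunc.num_div_denom]
      rw [zpow_sub₀ hP0, zpow_natCast, zpow_natCast]
      conv_lhs => rw [hx1]
      field_simp
    refine ⟨(a : ℤ) - b, ?_⟩
    rw [key]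
    refine ⟨div_ne_zero hr1 hs1, mem_IP_of r s hs2, ?_⟩
    rw [inv_div]
    exact mem_IP_of s r hr2
  · intro F _ x hx
    have hX0 : (RatFunc.X : RatFunc F) ≠ 0 := RatFunc.X_ne_zero
    refine ⟨-x.intDegree, ?_⟩
    have h1 : x / ((RatFunc.X : RatFunc F)⁻¹) ^ (-x.intDegree) =
        x * (RatFunc.X : RatFunc F) ^ (-x.intDegree) := by
      rw [_root_.inv_zpow, div_inv_eq_mul]
    have h2 : (x * (RatFunc.X : RatFunc F) ^ (-x.intDegree)).intDegree = 0 := by
      rw [RatFunc.intDegree_mul hx (zpow_ne_zero _ hX0), intDegree_zpow]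
      ring
    rw [h1]
    refine ⟨mul_ne_zero hx (zpow_ne_zero _ hX0), ?_, ?_⟩
    · show (x * (RatFunc.X : RatFunc F) ^ (-x.intDegree)).intDegree ≤ 0
      rw [h2]
    · show ((x * (RatFunc.X : RatFunc F) ^ (-x.intDegree))⁻¹).intDegree ≤ 0
      rw [RatFunc.intDegree_inv, h2]
      simp

end Pool.Agent.H85.AV3C
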